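import Mathlib

/-!
Large pairwise-intersecting subfamilies of dense set systems.

For `0 < c ≤ 1/2` and fixed small `ε` the function `f(n, m, c, ε)` is a power of `m` with an
exponent smaller than `1`, which tends to `1` as `ε → 0`, uniformly in `n ≥ C(ε) log m`:

* lower bound (dependent random choice): `f(n, m, c, ε) ≥ (c / 2) m ^ (1 - δ)` for all `n, m ≥ 1`
  as soon as `ε ≤ c ^ (1 + 1 / δ)`;
* upper bound (binary words and an isoperimetric inequality on the cube):
  `f(n, m, c, ε) ≤ 2 m ^ (1 - ε ^ 2 / 2)` for `n ≥ (4 / ε) (log₂ m + 1)`.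
-/

namespace Pool.Agent.Results.MP_cecf76_co.PolynomialSandwich

open Finset

/-- The index set `I` is `ε`-intersecting for the sequence `A` of subsets of an `n`-element set:
`|A i ∩ A j| > ε n` for all distinct `i, j ∈ I`. -/
def EpsIntersecting {n m : ℕ} (ε : ℝ) (A : Fin m → Finset (Fin n)) (I : Finset (Fin m)) : Prop :=
  ∀ i ∈ I, ∀ j ∈ I, i ≠ j → ε * n < ((A i ∩ A j).card : ℝ)

/-- `f(n, m, c, ε)`: the largest `k` such that every sequence `A 0, …, A (m-1)` of subsets of an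
`n`-element set with `|A i| > c n` for all `i` has an `ε`-intersecting index set of size `k`. -/
noncomputable def f (n m : ℕ) (c ε : ℝ) : ℕ :=
  sSup {k : ℕ | ∀ A : Fin m → Finset (Fin n), (∀ i, c * n < ((A i).card : ℝ)) →
    ∃ I : Finset (Fin m), I.card = k ∧ EpsIntersecting ε A I}

/-! ### Lower bound -/

lemma EpsIntersecting.mono {n m : ℕ} {ε : ℝ} {A : Fin m → Finset (Fin n)} {I J : Finset (Fin m)}
    (h : EpsIntersecting ε A I) (hJ : J ⊆ I) : EpsIntersecting ε A J :=
  fun i hi j hj hij => h i (hJ hi) j (hJ hj) hij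

open Classical in
lemma choice {n m : ℕ} (t : ℕ) (c ε : ℝ) (hc : 0 < c) (hε : 0 ≤ ε)
    (A : Fin m → Finset (Fin n)) (hA : ∀ i, c * n < ((A i).card : ℝ)) (hn : 1 ≤ n) :
    ∃ I : Finset (Fin m), EpsIntersecting ε A I ∧
      (m : ℝ) * c ^ t - (m : ℝ) ^ 2 / 2 * ε ^ t ≤ (I.card : ℝ) := by
  have hn0 : (0 : ℝ) < n := by exact_mod_cast hn
  let J : (Fin t → Fin n) → Finset (Fin m) := fun x => univ.filter fun i => ∀ s, x s ∈ A i
  let bad : Finset (Fin m × Fin m) :=
    univ.filter fun p => p.1 < p.2 ∧ ((A p.1 ∩ A p.2).card : ℝ) ≤ ε * n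
  let B : (Fin t → Fin n) → Finset (Fin m × Fin m) :=
    fun x => bad.filter fun p => ∀ s, x s ∈ A p.1 ∩ A p.2
  have hcount : ∀ S : Finset (Fin n),
      (((univ : Finset (Fin t → Fin n)).filter fun x => ∀ s, x s ∈ S).card : ℝ)
        = (S.card : ℝ) ^ t := by
    intro S
    have : ((univ : Finset (Fin t → Fin n)).filter fun x => ∀ s, x s ∈ S)
        = Fintype.piFinset fun _ : Fin t => S := by
      ext x; simp [Fintype.mem_piFinset]
    rw [this, Fintype.card_piFinset_const]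
    push_cast
    rfl
  have hJsum : ∑ x, ((J x).card : ℝ) = ∑ i, ((A i).card : ℝ) ^ t := by
    simp_rw [← hcount, J, Finset.card_filter]
    push_cast
    rw [Finset.sum_comm]
  have hBsum : ∑ x, ((B x).card : ℝ) = ∑ p ∈ bad, ((A p.1 ∩ A p.2).card : ℝ) ^ t := by
    simp_rw [← hcount, B, Finset.card_filter]
    push_cast
    rw [Finset.sum_comm]
  have hJ : (n : ℝ) ^ t * ((m : ℝ) * c ^ t) ≤ ∑ x, ((J x).card : ℝ) := by
    rw [hJsum]
    calc (n : ℝ) ^ t * ((m : ℝ) * c ^ t) = ∑ _i : Fin m, (c * n) ^ t := by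
          simp [mul_pow]; ring
      _ ≤ _ := by
          refine Finset.sum_le_sum fun i _ => ?_
          exact pow_le_pow_left₀ (by positivity) (hA i).le t
  have hbadcard : (bad.card : ℝ) ≤ (m : ℝ) ^ 2 / 2 := by
    have h1 : (bad ∪ bad.image Prod.swap).card ≤ (univ : Finset (Fin m × Fin m)).card :=
      Finset.card_le_card (Finset.subset_univ _)
    rw [Finset.card_union_of_disjoint, Finset.card_image_of_injective _ Prod.swap_injective,
      Finset.card_univ, Fintype.card_prod, Fintype.card_fin] at h1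
    · have h2 : (bad.card : ℝ) + bad.card ≤ m * m := by exact_mod_cast h1
      nlinarith
    · rw [Finset.disjoint_left]
      intro p hp hp'
      simp only [bad, Finset.mem_filter, Finset.mem_image, Finset.mem_univ, true_and] at hp hp'
      obtain ⟨q, ⟨hq, -⟩, rfl⟩ := hp'
      exact absurd hp.1 (by simpa using hq.le)
  have hB : ∑ x, ((B x).card : ℝ) ≤ (n : ℝ) ^ t * ((m : ℝ) ^ 2 / 2 * ε ^ t) := by
    rw [hBsum]
    calc ∑ p ∈ bad, ((A p.1 ∩ A p.2).card : ℝ) ^ t ≤ ∑ _p ∈ bad, (ε * n) ^ t := by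
          refine Finset.sum_le_sum fun p hp => ?_
          simp only [bad, Finset.mem_filter] at hp
          exact pow_le_pow_left₀ (by positivity) hp.2.2 t
      _ = (bad.card : ℝ) * (ε * n) ^ t := by simp
      _ ≤ (m : ℝ) ^ 2 / 2 * (ε * n) ^ t := by gcongr
      _ = _ := by rw [mul_pow]; ring
  have hsum : ∑ _x : (Fin t → Fin n), ((m : ℝ) * c ^ t - (m : ℝ) ^ 2 / 2 * ε ^ t) ≤
      ∑ x, (((J x).card : ℝ) - ((B x).card : ℝ)) := by
    have hconst : ∑ _x : (Fin t → Fin n), ((m : ℝ) * c ^ t - (m : ℝ) ^ 2 / 2 * ε ^ t)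
        = (n : ℝ) ^ t * ((m : ℝ) * c ^ t - (m : ℝ) ^ 2 / 2 * ε ^ t) := by
      rw [Finset.sum_const, Finset.card_univ, Fintype.card_fun,
        Fintype.card_fin, Fintype.card_fin, nsmul_eq_mul]
      push_cast
      ring
    rw [hconst, Finset.sum_sub_distrib]
    linarith
  have : Nonempty (Fin n) := ⟨⟨0, hn⟩⟩
  obtain ⟨x, -, hx⟩ := Finset.exists_le_of_sum_le (Finset.univ_nonempty) hsum
  refine ⟨J x \ (B x).image Prod.fst, ?_, ?_⟩
  · have key : ∀ i ∈ J x \ (B x).image Prod.fst, ∀ j ∈ J x \ (B x).image Prod.fst, i < j →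
        ε * n < ((A i ∩ A j).card : ℝ) := by
      intro i hi j hj hij
      by_contra hle
      push Not at hle
      simp only [Finset.mem_sdiff, Finset.mem_image, not_exists, not_and] at hi hj
      refine hi.2 (i, j) ?_ rfl
      simp only [B, bad, J, Finset.mem_filter, Finset.mem_univ, true_and, Finset.mem_inter] at *
      exact ⟨⟨hij, hle⟩, fun s => ⟨hi.1 s, hj.1 s⟩⟩
    intro i hi j hj hij
    rcases lt_or_gt_of_ne hij with h | h
    · exact key i hi j hj h
    · rw [Finset.inter_comm]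
      exact key j hj i hi h
  · have h1 : (J x).card ≤ (J x \ (B x).image Prod.fst).card + (B x).card := by
      have h2 := Finset.le_card_sdiff ((B x).image Prod.fst) (J x)
      have h3 : ((B x).image Prod.fst).card ≤ (B x).card := Finset.card_image_le
      omega
    have h2 : ((J x).card : ℝ) ≤ ((J x \ (B x).image Prod.fst).card : ℝ) + ((B x).card : ℝ) := by
      exact_mod_cast h1
    linarith

/-- The set of admissible sizes in the definition of `f` is bounded by `m`. -/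
lemma bddAbove_sizes {n m : ℕ} {c ε : ℝ} (hn : 1 ≤ n) (hc : c < 1) :
    BddAbove {k : ℕ | ∀ A : Fin m → Finset (Fin n), (∀ i, c * n < ((A i).card : ℝ)) →
      ∃ I : Finset (Fin m), I.card = k ∧ EpsIntersecting ε A I} := by
  refine ⟨m, fun k hk => ?_⟩
  obtain ⟨I, hI, -⟩ := hk (fun _ => univ) (by
    intro i
    have : (0 : ℝ) < n := by exact_mod_cast hn
    simp only [Finset.card_univ, Fintype.card_fin]
    nlinarith)
  rw [← hI]
  exact (Finset.card_le_univ I).trans (by simp)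

theorem lower (c : ℝ) (hc : 0 < c) (hc1 : c < 1) (δ : ℝ) (hδ : 0 < δ) (ε : ℝ) (hε : 0 < ε)
    (hεc : ε ≤ c ^ (1 + 1 / δ)) (n m : ℕ) (hn : 1 ≤ n) (hm : 1 ≤ m) :
    c / 2 * (m : ℝ) ^ (1 - δ) ≤ (f n m c ε : ℝ) := by
  have hm0 : (0 : ℝ) < m := by exact_mod_cast hm
  have hm1 : (1 : ℝ) ≤ m := by exact_mod_cast hm
  -- the number of random points
  set L : ℝ := δ * Real.log m / Real.log (1 / c) with hL
  have hlogc : 0 < Real.log (1 / c) := Real.log_pos (by rw [one_div]; exact (one_lt_inv₀ hc).2 hc1)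
  have hlogm : 0 ≤ Real.log m := Real.log_nonneg hm1
  have hL0 : 0 ≤ L := by positivity
  set t : ℕ := ⌈L⌉₊ with ht
  have hcL : c ^ L = (m : ℝ) ^ (-δ) := by
    rw [Real.rpow_def_of_pos hc, Real.rpow_def_of_pos hm0, hL, one_div, Real.log_inv]
    congr 1
    rw [one_div, Real.log_inv] at hlogc
    have : Real.log c ≠ 0 := by
      intro h; rw [h] at hlogc; simp at hlogc
    field_simp
  have ht1 : c ^ (t : ℝ) ≤ (m : ℝ) ^ (-δ) := by
    rw [← hcL]
    exact Real.rpow_le_rpow_of_exponent_ge hc hc1.le (Nat.le_ceil L)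
  have ht2 : c * (m : ℝ) ^ (-δ) ≤ c ^ (t : ℝ) := by
    rw [← hcL]
    calc c * c ^ L = c ^ (1 + L) := by rw [Real.rpow_add hc, Real.rpow_one]
      _ ≤ c ^ (t : ℝ) := by
        apply Real.rpow_le_rpow_of_exponent_ge hc hc1.le
        have := Nat.ceil_lt_add_one hL0
        linarith
  -- `m ε ^ t ≤ c ^ t`
  have hkey : (m : ℝ) * ε ^ t ≤ c ^ t := by
    have h1 : ε ^ t ≤ (c ^ (1 + 1 / δ)) ^ t := pow_le_pow_left₀ hε.le hεc t
    have h2 : (c ^ (1 + 1 / δ)) ^ t = c ^ (t : ℝ) * (c ^ (t : ℝ)) ^ (1 / δ) := by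
      rw [← Real.rpow_natCast, ← Real.rpow_mul hc.le, ← Real.rpow_mul hc.le, ← Real.rpow_add hc]
      congr 1
      ring
    have h3 : (c ^ (t : ℝ)) ^ (1 / δ) ≤ (m : ℝ)⁻¹ := by
      calc (c ^ (t : ℝ)) ^ (1 / δ) ≤ ((m : ℝ) ^ (-δ)) ^ (1 / δ) :=
            Real.rpow_le_rpow (by positivity) ht1 (by positivity)
        _ = (m : ℝ)⁻¹ := by
            rw [← Real.rpow_mul hm0.le]
            have : -δ * (1 / δ) = -1 := by field_simp
            rw [this, Real.rpow_neg_one]
    calc (m : ℝ) * ε ^ t ≤ m * (c ^ (t : ℝ) * (m : ℝ)⁻¹) := by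
          rw [h2] at h1
          have : ε ^ t ≤ c ^ (t : ℝ) * (m : ℝ)⁻¹ :=
            h1.trans (mul_le_mul_of_nonneg_left h3 (by positivity))
          exact mul_le_mul_of_nonneg_left this hm0.le
      _ = c ^ (t : ℝ) := by field_simp
      _ = c ^ t := Real.rpow_natCast _ _
  -- the claimed size is admissible
  have hfin : c / 2 * (m : ℝ) ^ (1 - δ) ≤ (m : ℝ) * c ^ t - (m : ℝ) ^ 2 / 2 * ε ^ t := by
    have h1 : (m : ℝ) ^ 2 / 2 * ε ^ t ≤ m / 2 * c ^ t := by
      calc (m : ℝ) ^ 2 / 2 * ε ^ t = m / 2 * (m * ε ^ t) := by ring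
        _ ≤ m / 2 * c ^ t := by gcongr
    have h2 : c / 2 * (m : ℝ) ^ (1 - δ) ≤ m / 2 * c ^ t := by
      rw [← Real.rpow_natCast]
      calc c / 2 * (m : ℝ) ^ (1 - δ) = m / 2 * (c * (m : ℝ) ^ (-δ)) := by
            rw [sub_eq_add_neg, Real.rpow_add hm0, Real.rpow_one]; ring
        _ ≤ m / 2 * c ^ (t : ℝ) := by gcongr
    linarith
  refine hfin.trans ?_
  have hmem : ⌈(m : ℝ) * c ^ t - (m : ℝ) ^ 2 / 2 * ε ^ t⌉₊ ∈
      {k : ℕ | ∀ A : Fin m → Finset (Fin n), (∀ i, c * n < ((A i).card : ℝ)) →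
        ∃ I : Finset (Fin m), I.card = k ∧ EpsIntersecting ε A I} := by
    intro A hA
    obtain ⟨I, hI1, hI2⟩ := choice t c ε hc hε.le A hA hn
    obtain ⟨J, hJI, hJ⟩ := Finset.exists_subset_card_eq (s := I)
      (n := ⌈(m : ℝ) * c ^ t - (m : ℝ) ^ 2 / 2 * ε ^ t⌉₊) (Nat.ceil_le.2 hI2)
    exact ⟨J, hJ, hI1.mono hJI⟩
  calc (m : ℝ) * c ^ t - (m : ℝ) ^ 2 / 2 * ε ^ t
      ≤ (⌈(m : ℝ) * c ^ t - (m : ℝ) ^ 2 / 2 * ε ^ t⌉₊ : ℝ) := Nat.le_ceil _
    _ ≤ (f n m c ε : ℝ) := by
        exact_mod_cast le_csSup (bddAbove_sizes hn hc1) hmem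

/-! ### Upper bound -/

/-- Two sets of binary words at distance at least `d` from each other. -/
lemma cube_bound (a : ℝ) (ha : 1 ≤ a) (N : ℕ) : ∀ (d : ℤ) (F G : Finset (Fin N → Bool)),
    (∀ x ∈ F, ∀ y ∈ G, d ≤ (hammingDist x y : ℤ)) →
    (F.card : ℝ) * G.card * a ^ d ≤ (2 + a + a⁻¹) ^ N := by
  have ha0 : 0 < a := by linarith
  induction N with
  | zero =>
    intro d F G h
    rcases F.eq_empty_or_nonempty with rfl | ⟨x, hx⟩
    · simp
    rcases G.eq_empty_or_nonempty with rfl | ⟨y, hy⟩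
    · simp
    have hd := h x hx y hy
    have h0 : hammingDist x y = 0 := by
      rw [Subsingleton.elim x y]; simp
    rw [h0] at hd
    have hF : F.card ≤ 1 := Finset.card_le_one.2 fun _ _ _ _ => Subsingleton.elim _ _
    have hG : G.card ≤ 1 := Finset.card_le_one.2 fun _ _ _ _ => Subsingleton.elim _ _
    have hF' : (F.card : ℝ) ≤ 1 := by exact_mod_cast hF
    have hG' : (G.card : ℝ) ≤ 1 := by exact_mod_cast hG
    have ha' : a ^ d ≤ 1 := zpow_le_one_of_nonpos₀ ha (by simpa using hd)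
    calc (F.card : ℝ) * G.card * a ^ d ≤ 1 * 1 * 1 := by gcongr
      _ = _ := by simp
  | succ N ih =>
    intro d F G h
    -- slices
    let sl : Finset (Fin (N + 1) → Bool) → Bool → Finset (Fin N → Bool) :=
      fun F b => univ.filter fun x => (Fin.cons b x : Fin (N + 1) → Bool) ∈ F
    have hcard : ∀ F : Finset (Fin (N + 1) → Bool),
        (F.card : ℝ) = (sl F false).card + (sl F true).card := by
      intro F
      have : F.card = (sl F false).card + (sl F true).card := by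
        rw [← Finset.card_image_of_injective (sl F false)
            (Fin.cons_right_injective (α := fun _ => Bool) false),
          ← Finset.card_image_of_injective (sl F true)
            (Fin.cons_right_injective (α := fun _ => Bool) true),
          ← Finset.card_union_of_disjoint]
        · congr 1
          ext x
          simp only [sl, Finset.mem_union, Finset.mem_image, Finset.mem_filter,
            Finset.mem_univ, true_and]
          constructor
          · intro hx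
            have hx' : (Fin.cons (x 0) (Fin.tail x) : Fin (N + 1) → Bool) = x :=
              Fin.cons_self_tail x
            cases hb : x 0
            · left
              refine ⟨Fin.tail x, ?_, ?_⟩ <;> rw [← hb, hx']
              exact hx
            · right
              refine ⟨Fin.tail x, ?_, ?_⟩ <;> rw [← hb, hx']
              exact hx
          · rintro (⟨y, hy, rfl⟩ | ⟨y, hy, rfl⟩) <;> exact hy
        · rw [Finset.disjoint_left]
          intro x hx hx'
          simp only [Finset.mem_image] at hx hx'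
          obtain ⟨y, -, hy⟩ := hx
          obtain ⟨z, -, hz⟩ := hx'
          rw [← hz] at hy
          have := congrFun hy 0
          simp at this
      exact_mod_cast this
    have hdist : ∀ (b b' : Bool) (x y : Fin N → Bool),
        (hammingDist (Fin.cons b x : Fin (N + 1) → Bool) (Fin.cons b' y) : ℤ) =
          (if b = b' then 0 else 1) + hammingDist x y := by
      intro b b' x y
      have : hammingDist (Fin.cons b x : Fin (N + 1) → Bool) (Fin.cons b' y) =
          (if b = b' then 0 else 1) + hammingDist x y := by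
        unfold hammingDist
        rw [Fin.univ_succ, Finset.filter_cons, ]
        by_cases hb : b = b'
        · simp [hb, Finset.filter_map]
        · simp [hb, Finset.filter_map, add_comm]
      rw [this]
      push_cast
      rfl
    have hsame : ∀ b, ∀ x ∈ sl F b, ∀ y ∈ sl G b, d ≤ (hammingDist x y : ℤ) := by
      intro b x hx y hy
      simp only [sl, Finset.mem_filter, Finset.mem_univ, true_and] at hx hy
      have := h _ hx _ hy
      rw [hdist] at this
      simpa using this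
    have hdiff : ∀ b b', b ≠ b' → ∀ x ∈ sl F b, ∀ y ∈ sl G b', d - 1 ≤ (hammingDist x y : ℤ) := by
      intro b b' hb x hx y hy
      simp only [sl, Finset.mem_filter, Finset.mem_univ, true_and] at hx hy
      have := h _ hx _ hy
      rw [hdist, if_neg hb] at this
      linarith
    set X : ℝ := (2 + a + a⁻¹) ^ N with hX
    have hX0 : 0 < X := by positivity
    have h00 := ih d _ _ (hsame false)
    have h11 := ih d _ _ (hsame true)
    have h01 := ih (d - 1) _ _ (hdiff false true (by simp))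
    have h10 := ih (d - 1) _ _ (hdiff true false (by simp))
    rw [hcard F, hcard G]
    have hp : (0 : ℝ) ≤ ((sl F false).card : ℝ) := by positivity
    have hq : (0 : ℝ) ≤ ((sl F true).card : ℝ) := by positivity
    have hr : (0 : ℝ) ≤ ((sl G false).card : ℝ) := by positivity
    have hs : (0 : ℝ) ≤ ((sl G true).card : ℝ) := by positivity
    generalize ((sl F false).card : ℝ) = p at *
    generalize ((sl F true).card : ℝ) = q at *
    generalize ((sl G false).card : ℝ) = r at *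
    generalize ((sl G true).card : ℝ) = s at *
    rw [zpow_sub_one₀ ha0.ne'] at h01 h10
    have hY0 : 0 < a ^ d := zpow_pos ha0 d
    generalize a ^ d = Y at *
    have e01 : p * s * Y ≤ a * X := by
      have := mul_le_mul_of_nonneg_left h01 ha0.le
      calc p * s * Y = a * (p * s * (Y * a⁻¹)) := by field_simp
        _ ≤ _ := this
    have e10 : q * r * Y ≤ a * X := by
      have := mul_le_mul_of_nonneg_left h10 ha0.le
      calc q * r * Y = a * (q * r * (Y * a⁻¹)) := by field_simp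
        _ ≤ _ := this
    have huv : (p * s * Y) * (q * r * Y) ≤ X * X := by
      calc (p * s * Y) * (q * r * Y) = (p * r * Y) * (q * s * Y) := by ring
        _ ≤ X * X := by
          apply mul_le_mul h00 h11 (by positivity) hX0.le
    have hsum : p * s * Y + q * r * Y ≤ (a + a⁻¹) * X := by
      have h1 : 0 ≤ (a * X - p * s * Y) * (a * X - q * r * Y) :=
        mul_nonneg (by linarith) (by linarith)
      have h2 : (a * X) * (p * s * Y + q * r * Y) ≤ (a * X) * ((a + a⁻¹) * X) := by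
        have h3 : (a * X) * ((a + a⁻¹) * X) = a ^ 2 * X ^ 2 + X * X := by
          field_simp
        rw [h3]
        nlinarith
      exact le_of_mul_le_mul_left h2 (by positivity)
    have hfin : (2 + a + a⁻¹) ^ (N + 1) = 2 * X + (a + a⁻¹) * X := by
      rw [pow_succ, ← hX]; ring
    rw [hfin]
    calc (p + q) * (r + s) * Y = p * r * Y + q * s * Y + (p * s * Y + q * r * Y) := by ring
      _ ≤ X + X + (a + a⁻¹) * X := by linarith
      _ = _ := by ring

/-- A family of binary words of length `N` any two of which agree in more than `ε N` places has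
at most `2 ^ N exp (- ε ^ 2 N / 2)` members. -/
lemma agree_bound (ε : ℝ) (hε : 0 < ε) (N : ℕ) (F : Finset (Fin N → Bool))
    (hF : ∀ x ∈ F, ∀ y ∈ F, ε * N < (((univ.filter fun j => x j = y j).card : ℕ) : ℝ)) :
    (F.card : ℝ) ≤ 2 ^ N * Real.exp (-(ε ^ 2 * N / 2)) := by
  -- the complements
  let G : Finset (Fin N → Bool) := F.image fun x j => !(x j)
  have hinj : Function.Injective fun (x : Fin N → Bool) (j : Fin N) => !(x j) := by
    intro x y hxy
    funext j
    have := congrFun hxy j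
    simpa using this
  have hG : G.card = F.card := Finset.card_image_of_injective _ hinj
  set d : ℤ := ⌈ε * N⌉ with hd
  set a : ℝ := Real.exp (2 * ε) with ha
  have ha1 : 1 ≤ a := Real.one_le_exp (by positivity)
  have key := cube_bound a ha1 N d F G (by
    intro x hx y hy
    simp only [G, Finset.mem_image] at hy
    obtain ⟨z, hz, rfl⟩ := hy
    have h1 := hF x hx z hz
    have h2 : hammingDist x (fun j => !(z j)) = (univ.filter fun j => x j = z j).card := by
      unfold hammingDist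
      congr 1
      ext j
      simp only [Finset.mem_filter, Finset.mem_univ, true_and]
      cases x j <;> cases z j <;> simp
    rw [h2]
    rw [hd, Int.ceil_le]
    exact_mod_cast h1.le)
  rw [hG] at key
  have h1 : Real.exp (2 * ε * (ε * N)) ≤ a ^ d := by
    rw [ha, ← Real.rpow_intCast, ← Real.exp_mul]
    apply Real.exp_le_exp.2
    have : ε * N ≤ (d : ℝ) := Int.le_ceil _
    nlinarith
  have h2 : 2 + a + a⁻¹ = 4 * Real.cosh ε ^ 2 := by
    rw [Real.cosh_eq, ha]
    have e1 : Real.exp (2 * ε) = Real.exp ε * Real.exp ε := by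
      rw [← Real.exp_add]; congr 1; ring
    rw [e1, Real.exp_neg]
    have := Real.exp_pos ε
    field_simp
    ring
  have h3 : 2 + a + a⁻¹ ≤ 4 * Real.exp (ε ^ 2) := by
    rw [h2]
    have hc := Real.cosh_le_exp_half_sq ε
    have hc0 : 0 < Real.cosh ε := Real.cosh_pos ε
    calc 4 * Real.cosh ε ^ 2 ≤ 4 * (Real.exp (ε ^ 2 / 2)) ^ 2 := by gcongr
      _ = 4 * Real.exp (ε ^ 2) := by
        rw [← Real.exp_nat_mul]; congr 2; push_cast; ring
  have hpos : 0 ≤ 2 + a + a⁻¹ := by rw [h2]; positivity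
  have h4 : (2 + a + a⁻¹) ^ N ≤ 4 ^ N * Real.exp (ε ^ 2 * N) := by
    calc (2 + a + a⁻¹) ^ N ≤ (4 * Real.exp (ε ^ 2)) ^ N := pow_le_pow_left₀ hpos h3 N
      _ = _ := by
        rw [mul_pow, ← Real.exp_nat_mul]; congr 2; ring
  have h5 : (F.card : ℝ) * F.card * Real.exp (2 * ε * (ε * N)) ≤ 4 ^ N * Real.exp (ε ^ 2 * N) := by
    refine le_trans ?_ (key.trans h4)
    gcongr
  have h6 : (F.card : ℝ) ^ 2 ≤ (2 ^ N * Real.exp (-(ε ^ 2 * N / 2))) ^ 2 := by
    have e1 : (2 ^ N * Real.exp (-(ε ^ 2 * N / 2))) ^ 2 =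
        4 ^ N * Real.exp (ε ^ 2 * N) * Real.exp (-(2 * ε * (ε * N))) := by
      rw [mul_pow, ← pow_mul, mul_comm N 2, pow_mul, ← Real.exp_nat_mul, mul_assoc, ← Real.exp_add]
      norm_num
      ring
    rw [e1]
    have e2 : (F.card : ℝ) ^ 2 = (F.card : ℝ) * F.card * Real.exp (2 * ε * (ε * N)) *
        Real.exp (-(2 * ε * (ε * N))) := by
      rw [mul_assoc _ (Real.exp _) (Real.exp _), ← Real.exp_add]; simp; ring
    rw [e2]
    exact mul_le_mul_of_nonneg_right h5 (Real.exp_pos _).le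
  exact le_of_sq_le_sq h6 (by positivity)

/-- The concatenated sets: `|A_i| > n / 2`, and `|A_i ∩ A_j|` is small when the words of `i` and
`j` agree rarely. -/
lemma construction (n m : ℕ) (hm : 2 ≤ m) (hn : 1 ≤ n) :
    ∃ (w : Fin m → (Fin (Nat.clog 2 m) → Bool)) (A : Fin m → Finset (Fin n)),
      Function.Injective w ∧ (∀ i, (n : ℝ) / 2 < (A i).card) ∧
      ∀ i j, ((A i ∩ A j).card : ℝ) ≤ (n : ℝ) / (2 * (Nat.clog 2 m : ℕ)) *
          (univ.filter fun k => w i k = w j k).card + 2 * (Nat.clog 2 m : ℕ) := by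
  set N := Nat.clog 2 m with hN
  have hN1 : 1 ≤ N := Nat.clog_pos (by norm_num) hm
  have hmN : m ≤ 2 ^ N := Nat.le_pow_clog (by norm_num) m
  obtain ⟨w⟩ : Nonempty (Fin m ↪ (Fin N → Bool)) := by
    rw [Function.Embedding.nonempty_iff_card_le]
    simpa using hmN
  set q := (n - 1) / (2 * N) with hq
  set r := n - 2 * N * q with hr
  have hdiv : 2 * N * q ≤ n - 1 := Nat.mul_div_le _ _
  have hmod : n - 1 < 2 * N * q + 2 * N := by
    have := Nat.lt_mul_div_succ (n - 1) (show 0 < 2 * N by omega)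
    rw [← hq] at this
    linarith [this, mul_add (2 * N) q 1]
  have hr1 : 1 ≤ r := by omega
  have hr2 : r ≤ 2 * N := by omega
  have hnr : 2 * N * q + r = n := by omega
  have hcard : Fintype.card ((Fin N × Bool × Fin q) ⊕ Fin r) = Fintype.card (Fin n) := by
    simp only [Fintype.card_sum, Fintype.card_prod, Fintype.card_fin, Fintype.card_bool]
    rw [← hnr]; ring
  let e : ((Fin N × Bool × Fin q) ⊕ Fin r) ≃ Fin n := Fintype.equivOfCardEq hcard
  have hinj : ∀ x : Fin N → Bool,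
      Function.Injective fun p : Fin N × Fin q => (p.1, x p.1, p.2) := by
    intro x p p' h
    simp only [Prod.mk.injEq] at h
    exact Prod.ext h.1 h.2.2
  let S : (Fin N → Bool) → Finset ((Fin N × Bool × Fin q) ⊕ Fin r) := fun x =>
    ((univ : Finset (Fin N × Fin q)).map ⟨fun p => (p.1, x p.1, p.2), hinj x⟩).disjSum univ
  have hS : ∀ x, (S x).card = N * q + r := by
    intro x
    simp [S, Finset.card_disjSum]
  have hSI : ∀ x y, (S x ∩ S y).card = (univ.filter fun k => x k = y k).card * q + r := by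
    intro x y
    have h1 : S x ∩ S y = (((univ.filter fun k => x k = y k) ×ˢ (univ : Finset (Fin q))).map
        ⟨fun p => (p.1, x p.1, p.2), hinj x⟩).disjSum univ := by
      ext z
      rcases z with ⟨k, b, l⟩ | z
      · constructor
        · intro h
          obtain ⟨h1, h2⟩ := Finset.mem_inter.1 h
          obtain ⟨⟨k1, l1⟩, -, h1⟩ := Finset.mem_map.1 (Finset.inl_mem_disjSum.1 h1)
          obtain ⟨⟨k2, l2⟩, -, h2⟩ := Finset.mem_map.1 (Finset.inl_mem_disjSum.1 h2)
          simp only [Function.Embedding.coeFn_mk, Prod.mk.injEq] at h1 h2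
          obtain ⟨h1a, h1b, h1c⟩ := h1
          obtain ⟨h2a, h2b, h2c⟩ := h2
          subst h1a; subst h1c; subst h2a; subst h2c
          refine Finset.inl_mem_disjSum.2 (Finset.mem_map.2 ⟨(k2, l2), ?_, ?_⟩)
          · simp only [Finset.mem_product, Finset.mem_filter, Finset.mem_univ, true_and, and_true]
            rw [h1b, h2b]
          · simp only [Function.Embedding.coeFn_mk, Prod.mk.injEq, true_and, and_true]
            exact h1b
        · intro h
          obtain ⟨⟨k1, l1⟩, h0, h1⟩ := Finset.mem_map.1 (Finset.inl_mem_disjSum.1 h)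
          simp only [Function.Embedding.coeFn_mk, Prod.mk.injEq] at h1
          simp only [Finset.mem_product, Finset.mem_filter, Finset.mem_univ, true_and,
            and_true] at h0
          obtain ⟨h1a, h1b, h1c⟩ := h1
          subst h1a; subst h1c; subst h1b
          refine Finset.mem_inter.2 ⟨Finset.inl_mem_disjSum.2 (Finset.mem_map.2
            ⟨(k1, l1), Finset.mem_univ _, rfl⟩), Finset.inl_mem_disjSum.2 (Finset.mem_map.2
            ⟨(k1, l1), Finset.mem_univ _, ?_⟩)⟩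
          simp only [Function.Embedding.coeFn_mk, Prod.mk.injEq, true_and, and_true]
          exact h0.symm
      · simp [S]
    rw [h1]
    simp [Finset.card_disjSum]
  refine ⟨w, fun i => (S (w i)).map e.toEmbedding, w.injective, ?_, ?_⟩
  · intro i
    rw [Finset.card_map, hS]
    have h1 : n < 2 * (N * q + r) := by
      have : 2 * (N * q + r) = n + r := by
        calc 2 * (N * q + r) = 2 * N * q + r + r := by ring
          _ = n + r := by rw [hnr]
      omega
    have h2 : (n : ℝ) < 2 * ((N * q + r : ℕ) : ℝ) := by exact_mod_cast h1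
    linarith
  · intro i j
    rw [← Finset.map_inter, Finset.card_map, hSI]
    have hN0 : (0 : ℝ) < N := by exact_mod_cast hN1
    have h1 : (q : ℝ) ≤ n / (2 * N) := by
      rw [le_div_iff₀ (by positivity)]
      have : q * (2 * N) ≤ n := by
        have : q * (2 * N) = 2 * N * q := by ring
        omega
      exact_mod_cast this
    have h2 : (r : ℝ) ≤ 2 * N := by exact_mod_cast hr2
    push_cast
    have h3 : (0 : ℝ) ≤ ((univ.filter fun k => w i k = w j k).card : ℝ) := by positivity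
    nlinarith [mul_le_mul_of_nonneg_right h1 h3]

theorem upper (c : ℝ) (hc : c ≤ 1 / 2) (ε : ℝ) (hε : 0 < ε) (hε1 : ε < 1) (n m : ℕ) (hm : 2 ≤ m)
    (hn : 4 / ε * (Real.logb 2 m + 1) ≤ n) :
    (f n m c ε : ℝ) ≤ 2 * (m : ℝ) ^ (1 - ε ^ 2 / 2) := by
  have hm0 : (0 : ℝ) < m := by exact_mod_cast (by omega : 0 < m)
  have hm1 : (1 : ℝ) ≤ m := by exact_mod_cast (by omega : 1 ≤ m)
  have hlogb : 0 ≤ Real.logb 2 m := Real.logb_nonneg (by norm_num) hm1
  have hn0 : (0 : ℝ) < n := lt_of_lt_of_le (by positivity) hn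
  have hn1 : 1 ≤ n := by exact_mod_cast hn0
  obtain ⟨w, A, hw, hA, hAI⟩ := construction n m hm hn1
  have hN1 : 1 ≤ Nat.clog 2 m := Nat.clog_pos (by norm_num) hm
  have hmN : m ≤ 2 ^ Nat.clog 2 m := Nat.le_pow_clog (by norm_num) m
  have hNm : 2 ^ (Nat.clog 2 m - 1) < m := Nat.pow_pred_clog_lt_self (by norm_num) (by omega)
  generalize Nat.clog 2 m = N at *
  have hN0 : (0 : ℝ) < N := by exact_mod_cast hN1
  have hNlog : (N : ℝ) ≤ Real.logb 2 m + 1 := by
    have h1 : ((N - 1 : ℕ) : ℝ) ≤ Real.logb 2 m := by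
      rw [Real.le_logb_iff_rpow_le (by norm_num) hm0, Real.rpow_natCast]
      exact_mod_cast hNm.le
    have h2 : (N : ℝ) = ((N - 1 : ℕ) : ℝ) + 1 := by
      rw [Nat.cast_sub hN1]; push_cast; ring
    linarith
  have h4N : 4 * (N : ℝ) ≤ ε * n := by
    have : 4 / ε * N ≤ n := le_trans (by gcongr) hn
    rw [div_mul_eq_mul_div, div_le_iff₀ hε] at this
    linarith
  have hmem : f n m c ε ∈ {k : ℕ | ∀ A : Fin m → Finset (Fin n),
      (∀ i, c * n < ((A i).card : ℝ)) →
      ∃ I : Finset (Fin m), I.card = k ∧ EpsIntersecting ε A I} := by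
    refine Nat.sSup_mem ⟨0, fun A _ => ⟨∅, rfl, ?_⟩⟩ (bddAbove_sizes hn1 (by linarith))
    intro i hi
    simp at hi
  obtain ⟨I, hI, hII⟩ := hmem A (fun i => lt_of_le_of_lt (by nlinarith) (hA i))
  have hb := agree_bound ε hε N (I.image w) (by
    intro x hx y hy
    simp only [Finset.mem_image] at hx hy
    obtain ⟨i, hi, rfl⟩ := hx
    obtain ⟨j, hj, rfl⟩ := hy
    by_cases hij : i = j
    · subst hij
      simp only [Finset.filter_true, Finset.card_univ, Fintype.card_fin]
      nlinarith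
    · by_contra hle
      push Not at hle
      have h1 := hII i hi j hj hij
      have h2 := hAI i j
      have h3 : (n : ℝ) / (2 * N) * ((univ.filter fun k => w i k = w j k).card : ℝ) ≤
          (n : ℝ) / (2 * N) * (ε * N) := by gcongr
      have h4 : (n : ℝ) / (2 * N) * (ε * N) = ε * n / 2 := by field_simp
      linarith)
  rw [Finset.card_image_of_injective _ hw, hI] at hb
  have h2N : (2 : ℝ) ^ N ≤ 2 * m := by
    have : 2 ^ N ≤ 2 * m := by
      calc 2 ^ N = 2 * 2 ^ (N - 1) := by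
            rw [← pow_succ', Nat.sub_add_cancel hN1]
        _ ≤ 2 * m := by omega
    exact_mod_cast this
  have hlog : Real.log m ≤ N := by
    have h1 : Real.log m ≤ N * Real.log 2 := by
      rw [← Real.log_pow]
      apply Real.log_le_log hm0
      exact_mod_cast hmN
    have h2 : Real.log 2 < 1 := by
      have := Real.log_two_lt_d9
      linarith
    nlinarith
  have hexp : Real.exp (-(ε ^ 2 * N / 2)) ≤ (m : ℝ) ^ (-(ε ^ 2 / 2)) := by
    rw [Real.rpow_def_of_pos hm0]
    apply Real.exp_le_exp.2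
    have : 0 < ε ^ 2 := by positivity
    nlinarith
  calc (f n m c ε : ℝ) ≤ 2 ^ N * Real.exp (-(ε ^ 2 * N / 2)) := hb
    _ ≤ (2 * m) * (m : ℝ) ^ (-(ε ^ 2 / 2)) := by gcongr
    _ = 2 * (m : ℝ) ^ (1 - ε ^ 2 / 2) := by
      rw [sub_eq_add_neg, Real.rpow_add hm0, Real.rpow_one]; ring

/-- For `c ≤ 1 / 2` no bound `f(n, m, c, ε) ≥ η m` holds, however large `n` is. -/
theorem not_linear (c : ℝ) (hc : c ≤ 1 / 2) (ε : ℝ) (hε : 0 < ε) (hε1 : ε < 1) (η : ℝ)
    (hη : 0 < η) : ∃ M : ℕ, ∀ m n : ℕ, M ≤ m → m ≤ n → (f n m c ε : ℝ) < η * m := by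
  have e1 : ∀ᶠ x : ℝ in Filter.atTop, 2 / η < x ^ (ε ^ 2 / 2) :=
    (tendsto_rpow_atTop (by positivity : 0 < ε ^ 2 / 2)).eventually (Filter.eventually_gt_atTop _)
  have hl2 : 0 < Real.log 2 := Real.log_pos (by norm_num)
  have e2 : ∀ᶠ x : ℝ in Filter.atTop, ‖Real.log x‖ ≤ (ε * Real.log 2 / 8) * ‖id x‖ :=
    Real.isLittleO_log_id_atTop.def (by positivity)
  have e3 : ∀ᶠ x : ℝ in Filter.atTop, 8 / ε ≤ x := Filter.eventually_ge_atTop _
  have e4 : ∀ᶠ x : ℝ in Filter.atTop, (2 : ℝ) ≤ x := Filter.eventually_ge_atTop _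
  have e5 := (e1.and (e2.and (e3.and e4)))
  have e6 := tendsto_natCast_atTop_atTop (R := ℝ) |>.eventually e5
  obtain ⟨M, hM⟩ := Filter.eventually_atTop.1 e6
  refine ⟨M, fun m n hm hmn => ?_⟩
  obtain ⟨h1, h2, h3, h4⟩ := hM m hm
  have hm2 : 2 ≤ m := by exact_mod_cast h4
  have hm0 : (0 : ℝ) < m := by linarith
  have hmn' : (m : ℝ) ≤ n := by exact_mod_cast hmn
  have h5 : 4 / ε * (Real.logb 2 m + 1) ≤ n := by
    refine le_trans ?_ hmn'
    have h6 : Real.log m ≤ (ε * Real.log 2 / 8) * m := by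
      have := (le_abs_self _).trans h2
      simpa [abs_of_pos hm0] using this
    have h7 : Real.logb 2 m ≤ ε / 8 * m := by
      rw [Real.logb, div_le_iff₀ hl2]
      linarith
    have h8 : 1 ≤ ε / 8 * m := by
      rw [div_le_iff₀ hε] at h3
      linarith
    calc 4 / ε * (Real.logb 2 m + 1) ≤ 4 / ε * (ε / 8 * m + ε / 8 * m) := by gcongr
      _ = m := by field_simp; ring
  have h9 := upper c hc ε hε hε1 n m hm2 h5
  refine lt_of_le_of_lt h9 ?_
  rw [div_lt_iff₀ hη] at h1
  have h10 : (m : ℝ) ^ (1 - ε ^ 2 / 2) * (m : ℝ) ^ (ε ^ 2 / 2) = m := by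
    rw [← Real.rpow_add hm0]; simp
  have h11 : 0 < (m : ℝ) ^ (1 - ε ^ 2 / 2) := Real.rpow_pos_of_pos hm0 _
  calc 2 * (m : ℝ) ^ (1 - ε ^ 2 / 2) < ((m : ℝ) ^ (ε ^ 2 / 2) * η) * (m : ℝ) ^ (1 - ε ^ 2 / 2) := by
        gcongr
    _ = η * ((m : ℝ) ^ (1 - ε ^ 2 / 2) * (m : ℝ) ^ (ε ^ 2 / 2)) := by ring
    _ = η * m := by rw [h10]

/-- **Main theorem.**
1. (Lower bound.) For `0 < c < 1`, `δ > 0`, `0 < ε ≤ c ^ (1 + 1 / δ)` and all `n, m ≥ 1`,
   `f(n, m, c, ε) ≥ (c / 2) m ^ (1 - δ)`.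
2. (Upper bound.) For `c ≤ 1 / 2`, `0 < ε < 1`, `m ≥ 2` and `n ≥ (4 / ε) (log₂ m + 1)`,
   `f(n, m, c, ε) ≤ 2 m ^ (1 - ε ^ 2 / 2)`.
3. (The conjecture.) For `0 < c < 1` and `0 < ε ≤ c ^ 3`, `f(n, n, c, ε) ≥ (c / 2) √n` for `n ≥ 1`.
4. (The case `m < n`.) For `c ≤ 1 / 2`, `0 < ε < 1` and every `η > 0`, `f(n, m, c, ε) < η m` for
   all sufficiently large `m` and all `n ≥ m`. -/
theorem result :
    (∀ c : ℝ, 0 < c → c < 1 → ∀ δ : ℝ, 0 < δ → ∀ ε : ℝ, 0 < ε → ε ≤ c ^ (1 + 1 / δ) →
      ∀ n m : ℕ, 1 ≤ n → 1 ≤ m → c / 2 * (m : ℝ) ^ (1 - δ) ≤ (f n m c ε : ℝ)) ∧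
    (∀ c : ℝ, c ≤ 1 / 2 → ∀ ε : ℝ, 0 < ε → ε < 1 → ∀ n m : ℕ, 2 ≤ m →
      4 / ε * (Real.logb 2 m + 1) ≤ n → (f n m c ε : ℝ) ≤ 2 * (m : ℝ) ^ (1 - ε ^ 2 / 2)) ∧
    (∀ c : ℝ, 0 < c → c < 1 → ∀ ε : ℝ, 0 < ε → ε ≤ c ^ 3 →
      ∀ n : ℕ, 1 ≤ n → c / 2 * √n ≤ (f n n c ε : ℝ)) ∧
    (∀ c : ℝ, c ≤ 1 / 2 → ∀ ε : ℝ, 0 < ε → ε < 1 → ∀ η : ℝ, 0 < η →
      ∃ M : ℕ, ∀ m n : ℕ, M ≤ m → m ≤ n → (f n m c ε : ℝ) < η * m) := by
  refine ⟨lower, upper, ?_, not_linear⟩
  intro c hc hc1 ε hε hεc n hn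
  have h := lower c hc hc1 (1 / 2) (by norm_num) ε hε (by
    have : (1 : ℝ) + 1 / (1 / 2) = ((3 : ℕ) : ℝ) := by norm_num
    rw [this, Real.rpow_natCast]
    exact hεc) n n hn hn
  rw [Real.sqrt_eq_rpow]
  norm_num at h ⊢
  exact h

end Pool.Agent.Results.MP_cecf76_co.PolynomialSandwich
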